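import Mathlib
import Pool.Agent.Q220.SLExp.Orth
import Pool.Agent.Q220.SLExp.Two

/-!
MP_9660fa_lc: the Lie exponent of `SL(n, ℝ)` is finite exactly for `n ≥ 3`, and then it is at most
`3 (n - 1) / (n - 2)`.
-/

set_option autoImplicit false

namespace Pool.Agent.Results.MP_9660fa_lc.FiniteIff

open Matrix Q220.SLExp

/-- The Lie exponent of `SL(n, ℝ)`, a Lie group of dimension `n² - 1` and rank `n - 1`: the infimum
of `r / ((m₁ + m₂ + m₃) / 3 - (d - r) / 2)` over the triples of submanifolds of dimensions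
`m₁, m₂, m₃` that satisfy the triple product property and for which the denominator is positive
(`⊤` if there are none). -/
noncomputable def lieExponent (n : ℕ) : EReal :=
  sInf {w : EReal | ∃ (M₁ M₂ M₃ : Set (SpecialLinearGroup (Fin n) ℝ)) (m₁ m₂ m₃ : ℕ),
    IsSubmanifold m₁ M₁ ∧ IsSubmanifold m₂ M₂ ∧ IsSubmanifold m₃ M₃ ∧
    TripleProductProperty M₁ M₂ M₃ ∧
    (0 : ℝ) < ((m₁ : ℝ) + m₂ + m₃) / 3 - (((n : ℝ) ^ 2 - 1) - (n - 1)) / 2 ∧
    w = ((((n : ℝ) - 1) /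
      (((m₁ : ℝ) + m₂ + m₃) / 3 - (((n : ℝ) ^ 2 - 1) - (n - 1)) / 2) : ℝ) : EReal)}

theorem upper {n : ℕ} (hn : 3 ≤ n) :
    lieExponent n ≤ ((3 * ((n : ℝ) - 1) / (n - 2) : ℝ) : EReal) := by
  have hn' : (3 : ℝ) ≤ n := by exact_mod_cast hn
  have hc : ((Fintype.card (Pairs n) : ℕ) : ℝ) = (n : ℝ) * (n - 1) / 2 := by
    have h := card_pairs n
    have h1 : (2 : ℝ) * (Fintype.card (Pairs n) : ℕ) = n * ((n - 1 : ℕ) : ℝ) := by exact_mod_cast h
    rw [Nat.cast_sub (by omega)] at h1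
    push_cast at h1
    linarith
  have hden : (((Fintype.card (Pairs n) + (n - 2) : ℕ) : ℝ) + (Fintype.card (Pairs n) : ℕ) +
      (Fintype.card (Pairs n) : ℕ)) / 3 - (((n : ℝ) ^ 2 - 1) - (n - 1)) / 2 = ((n : ℝ) - 2) / 3 := by
    rw [Nat.cast_add, Nat.cast_sub (by omega), hc]
    push_cast
    ring
  apply sInf_le
  refine ⟨setS n, setT n, setU n, _, _, _, submanifold_S (by omega), submanifold_T,
    submanifold_U, tpp, ?_, ?_⟩
  · rw [hden]
    linarith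
  · rw [hden]
    congr 1
    have : (n : ℝ) - 2 ≠ 0 := by linarith
    field_simp

theorem two : lieExponent 2 = ⊤ := by
  unfold lieExponent
  rw [sInf_eq_top]
  rintro w ⟨M₁, M₂, M₃, m₁, m₂, m₃, h1, h2, h3, h, hpos, -⟩
  exfalso
  have h4 := total_two h1 h2 h3 h
  have h5 : (m₁ : ℝ) + m₂ + m₃ ≤ 3 := by exact_mod_cast h4
  push_cast at hpos
  linarith

/-- For every `n ≥ 2` the Lie exponent of `SL(n, ℝ)` is finite if and only if `n ≥ 3`, and for
`n ≥ 3` it is at most `3 (n - 1) / (n - 2)`. -/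
theorem result : ∀ n : ℕ, 2 ≤ n →
    (lieExponent n < ⊤ ↔ 3 ≤ n) ∧
    (3 ≤ n → lieExponent n ≤ ((3 * ((n : ℝ) - 1) / (n - 2) : ℝ) : EReal)) := by
  intro n hn
  refine ⟨⟨fun h => ?_, fun h => lt_of_le_of_lt (upper h) (EReal.coe_lt_top _)⟩, upper⟩
  by_contra hlt
  have : n = 2 := by omega
  subst this
  rw [two] at h
  exact lt_irrefl _ h

end Pool.Agent.Results.MP_9660fa_lc.FiniteIff
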